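import Pool.Agent.Helper27.Cube.Slice

set_option autoImplicit false

namespace Pool.Agent.Helper27.Cube

open MeasureTheory Set
open scoped ENNReal

/-- The piece over the face `x i ≤ 23/20`. -/
def pieceT (i j k : Fin 3) : Set (Fin 3 → ℝ) :=
  {x | x i ∈ Ioc (1 : ℝ) (23 / 20) ∧ x j < (5 - 3 * x i) / 2 ∧ x k < (5 - 3 * x i) / 2 ∧
    2459 / 1000 < x i + x j + x k}

/-- The central piece. -/
def pieceS : Set (Fin 3 → ℝ) :=
  {x | x 0 ∈ Ioc (459 / 1000 : ℝ) 1 ∧ x 1 < 1 ∧ x 2 < 1 ∧ 2459 / 1000 < x 0 + x 1 + x 2}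

theorem measurableSet_pieceT (i j k : Fin 3) : MeasurableSet (pieceT i j k) := by
  have hi : Measurable fun x : Fin 3 → ℝ => x i := measurable_pi_apply i
  have hj : Measurable fun x : Fin 3 → ℝ => x j := measurable_pi_apply j
  have hk : Measurable fun x : Fin 3 → ℝ => x k := measurable_pi_apply k
  refine MeasurableSet.inter (hi measurableSet_Ioc) ?_
  refine MeasurableSet.inter (measurableSet_lt hj ((measurable_const.sub (hi.const_mul 3)).div_const 2)) ?_
  refine MeasurableSet.inter (measurableSet_lt hk ((measurable_const.sub (hi.const_mul 3)).div_const 2)) ?_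
  exact measurableSet_lt measurable_const ((hi.add hj).add hk)

theorem volume_pieceT_zero : volume (pieceT 0 1 2) = ENNReal.ofReal (481143 / 40000000) := by
  have h := volume_slab (2459 / 1000) 1 (23 / 20) (fun t => (5 - 3 * t) / 2) (by fun_prop)
    (fun t ht => by have := ht.2; linarith)
  rw [pieceT, h]
  have h2 : ∀ t : ℝ, (2 * ((5 - 3 * t) / 2) - (2459 / 1000 - t)) ^ 2 / 2 =
      ((5 - 2459 / 1000) + (-2) * t) ^ 2 / 2 := by intro t; ring
  simp_rw [h2]
  rw [lintegral_sq _ _ _ _ (by norm_num) (by norm_num)]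
  congr 1
  norm_num

theorem volume_pieceS : volume pieceS = ENNReal.ofReal (158340421 / 6000000000) := by
  have h := volume_slab (2459 / 1000) (459 / 1000) 1 (fun _ => 1) measurable_const
    (fun t ht => by have := ht.1; linarith)
  rw [pieceS, h]
  have h2 : ∀ t : ℝ, (2 * (1 : ℝ) - (2459 / 1000 - t)) ^ 2 / 2 =
      ((2 - 2459 / 1000) + 1 * t) ^ 2 / 2 := by intro t; ring
  simp_rw [h2]
  rw [lintegral_sq _ _ _ _ (by norm_num) (by norm_num)]
  congr 1
  norm_num

theorem volume_pieceT (i j k : Fin 3) (σ : Equiv.Perm (Fin 3)) (hi : σ i = 0) (hj : σ j = 1)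
    (hk : σ k = 2) : volume (pieceT i j k) = ENNReal.ofReal (481143 / 40000000) := by
  rw [← volume_pieceT_zero]
  have hmp := volume_measurePreserving_piCongrLeft (fun _ : Fin 3 => ℝ) σ
  have := hmp.measure_preimage (measurableSet_pieceT 0 1 2).nullMeasurableSet
  rw [← this]
  congr 1
  ext x
  have key : ∀ l : Fin 3, (MeasurableEquiv.piCongrLeft (fun _ : Fin 3 => ℝ) σ x) (σ l) = x l := by
    intro l
    simp [MeasurableEquiv.piCongrLeft, Equiv.piCongrLeft_apply_apply]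
  simp only [pieceT, mem_preimage, Set.mem_ofPred_eq]
  rw [← hi, ← hj, ← hk, key, key, key]

/-- The corner mountain of the truncated cube has volume at least `0.0624`. -/
theorem corner_vol : ENNReal.ofReal 0.0624 ≤ MeasureTheory.volume {x : Fin 3 → ℝ |
    (∀ i, |x i| ≤ 23/20) ∧ (∀ i j, i ≠ j → 3*|x i| + 2*|x j| ≤ 5) ∧
      2459/1000 < x 0 + x 1 + x 2} := by
  set A := {x : Fin 3 → ℝ | (∀ i, |x i| ≤ 23/20) ∧ (∀ i j, i ≠ j → 3*|x i| + 2*|x j| ≤ 5) ∧
      2459/1000 < x 0 + x 1 + x 2} with hA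
  have key : ∀ x : Fin 3 → ℝ, (∀ i, 0 ≤ x i) → (∀ i, x i ≤ 23/20) →
      (∀ i j, i ≠ j → 3 * x i + 2 * x j ≤ 5) → 2459/1000 < x 0 + x 1 + x 2 → x ∈ A := by
    intro x h0 h1 h2 h3
    refine ⟨fun i => by rw [abs_of_nonneg (h0 i)]; exact h1 i, fun i j hij => ?_, h3⟩
    rw [abs_of_nonneg (h0 i), abs_of_nonneg (h0 j)]
    exact h2 i j hij
  have hS : pieceS ⊆ A := by
    rintro x ⟨⟨h1, h2⟩, h3, h4, h5⟩
    apply key x _ _ _ h5
    · intro i; fin_cases i <;> simp <;> linarith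
    · intro i; fin_cases i <;> simp <;> linarith
    · intro i j hij; fin_cases i <;> fin_cases j <;> simp at hij ⊢ <;> linarith
  have hT0 : pieceT 0 1 2 ⊆ A := by
    rintro x ⟨⟨h1, h2⟩, h3, h4, h5⟩
    apply key x _ _ _ h5
    · intro i; fin_cases i <;> simp <;> linarith
    · intro i; fin_cases i <;> simp <;> linarith
    · intro i j hij; fin_cases i <;> fin_cases j <;> simp at hij ⊢ <;> linarith
  have hT1 : pieceT 1 0 2 ⊆ A := by
    rintro x ⟨⟨h1, h2⟩, h3, h4, h5⟩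
    apply key x _ _ _ (by linarith)
    · intro i; fin_cases i <;> simp <;> linarith
    · intro i; fin_cases i <;> simp <;> linarith
    · intro i j hij; fin_cases i <;> fin_cases j <;> simp at hij ⊢ <;> linarith
  have hT2 : pieceT 2 1 0 ⊆ A := by
    rintro x ⟨⟨h1, h2⟩, h3, h4, h5⟩
    apply key x _ _ _ (by linarith)
    · intro i; fin_cases i <;> simp <;> linarith
    · intro i; fin_cases i <;> simp <;> linarith
    · intro i j hij; fin_cases i <;> fin_cases j <;> simp at hij ⊢ <;> linarith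
  have d1 : Disjoint pieceS (pieceT 0 1 2) := by
    rw [Set.disjoint_left]
    rintro x ⟨⟨h1, h2⟩, h3, h4, h5⟩ ⟨⟨g1, g2⟩, g3, g4, g5⟩
    linarith
  have d2 : Disjoint (pieceS ∪ pieceT 0 1 2) (pieceT 1 0 2) := by
    rw [Set.disjoint_left]
    rintro x (⟨⟨h1, h2⟩, h3, h4, h5⟩ | ⟨⟨h1, h2⟩, h3, h4, h5⟩) ⟨⟨g1, g2⟩, g3, g4, g5⟩ <;> linarith
  have d3 : Disjoint (pieceS ∪ pieceT 0 1 2 ∪ pieceT 1 0 2) (pieceT 2 1 0) := by
    rw [Set.disjoint_left]
    rintro x ((⟨⟨h1, h2⟩, h3, h4, h5⟩ | ⟨⟨h1, h2⟩, h3, h4, h5⟩) | ⟨⟨h1, h2⟩, h3, h4, h5⟩)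
      ⟨⟨g1, g2⟩, g3, g4, g5⟩ <;> linarith
  have hsub : pieceS ∪ pieceT 0 1 2 ∪ pieceT 1 0 2 ∪ pieceT 2 1 0 ⊆ A :=
    union_subset (union_subset (union_subset hS hT0) hT1) hT2
  refine le_trans ?_ (measure_mono hsub)
  rw [measure_union d3 (measurableSet_pieceT _ _ _), measure_union d2 (measurableSet_pieceT _ _ _),
    measure_union d1 (measurableSet_pieceT _ _ _), volume_pieceS, volume_pieceT_zero,
    volume_pieceT 1 0 2 (Equiv.swap 0 1) (by decide) (by decide) (by decide),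
    volume_pieceT 2 1 0 (Equiv.swap 0 2) (by decide) (by decide) (by decide),
    ← ENNReal.ofReal_add (by norm_num) (by norm_num), ← ENNReal.ofReal_add (by norm_num) (by norm_num),
    ← ENNReal.ofReal_add (by norm_num) (by norm_num)]
  apply ENNReal.ofReal_le_ofReal
  norm_num

end Pool.Agent.Helper27.Cube
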