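import Pool.Agent.Helper27.Cube.Disc

set_option autoImplicit false

namespace Pool.Agent.Helper27.Cube

open MeasureTheory Set
open scoped ENNReal

/-- Part of the octant ball of squared radius `2` lying over `x i ∈ I`. -/
def octPart (I : Set ℝ) (i j k : Fin 3) : Set (Fin 3 → ℝ) :=
  {x | x i ∈ I ∧ 0 ≤ x j ∧ 0 ≤ x k ∧ x i ^ 2 + x j ^ 2 + x k ^ 2 ≤ 2}

theorem measurableSet_octPart (I : Set ℝ) (hI : MeasurableSet I) (i j k : Fin 3) :
    MeasurableSet (octPart I i j k) := by
  have hi : Measurable fun x : Fin 3 → ℝ => x i := measurable_pi_apply i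
  have hj : Measurable fun x : Fin 3 → ℝ => x j := measurable_pi_apply j
  have hk : Measurable fun x : Fin 3 → ℝ => x k := measurable_pi_apply k
  refine MeasurableSet.inter (hi hI) ?_
  refine MeasurableSet.inter (measurableSet_le measurable_const hj) ?_
  refine MeasurableSet.inter (measurableSet_le measurable_const hk) ?_
  exact measurableSet_le (((hi.pow_const 2).add (hj.pow_const 2)).add (hk.pow_const 2))
    measurable_const

theorem volume_octPart_zero (a b : ℝ) (ha : 0 ≤ a) (hab : a ≤ b) (hb : b ≤ √2) :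
    volume (octPart (Ioc a b) 0 1 2) =
      ENNReal.ofReal (Real.pi / 4 * (2 * (b - a) - (b ^ 3 - a ^ 3) / 3)) := by
  have h2 : ∀ t ∈ Ioc a b, 0 ≤ 2 - t ^ 2 := by
    intro t ht
    have h0 : 0 ≤ t := ha.trans ht.1.le
    have h1 : t ≤ √2 := ht.2.trans hb
    have := Real.sq_sqrt (show (0:ℝ) ≤ 2 by norm_num)
    nlinarith
  rw [volume_eq_lintegral_slice _ (measurableSet_octPart _ measurableSet_Ioc 0 1 2)]
  have hs : ∀ t : ℝ, volume {p : ℝ × ℝ | ![t, p.1, p.2] ∈ octPart (Ioc a b) 0 1 2} =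
      (Ioc a b).indicator (fun t => ENNReal.ofReal (Real.pi * (2 - t ^ 2) / 4)) t := by
    intro t
    by_cases ht : t ∈ Ioc a b
    · rw [indicator_of_mem ht, ← volume_quarter_disc _ (h2 t ht)]
      congr 1
      ext p
      simp only [octPart, Set.mem_ofPred_eq, Matrix.cons_val_zero, Matrix.cons_val_one,
        Matrix.cons_val, ht, true_and]
      constructor
      · rintro ⟨h1, h2, h3⟩
        exact ⟨h1, h2, by linarith⟩
      · rintro ⟨h1, h2, h3⟩
        exact ⟨h1, h2, by linarith⟩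
    · rw [indicator_of_notMem ht]
      convert measure_empty (μ := (volume : Measure (ℝ × ℝ)))
      ext p
      simp only [octPart, Set.mem_ofPred_eq, Matrix.cons_val_zero, ht, false_and,
        mem_empty_iff_false]
  simp_rw [hs]
  rw [lintegral_indicator measurableSet_Ioc, ← ofReal_integral_eq_lintegral_ofReal]
  · congr 1
    rw [← intervalIntegral.integral_of_le hab]
    have hd : ∀ y ∈ uIcc a b, HasDerivAt (fun y : ℝ => Real.pi / 4 * (2 * y - y ^ 3 / 3))
        (Real.pi * (2 - y ^ 2) / 4) y := by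
      intro y _
      have := (((hasDerivAt_id y).const_mul 2).sub (((hasDerivAt_id y).pow 3).div_const 3)).const_mul
        (Real.pi / 4)
      refine this.congr_deriv ?_
      simp
      ring
    rw [intervalIntegral.integral_eq_sub_of_hasDerivAt hd]
    · ring
    · apply Continuous.intervalIntegrable
      fun_prop
  · have : Continuous fun t : ℝ => Real.pi * (2 - t ^ 2) / 4 := by fun_prop
    exact (this.integrableOn_Icc (a := a) (b := b)).mono_set Ioc_subset_Icc_self
  · rw [Filter.EventuallyLE, ae_restrict_iff' measurableSet_Ioc]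
    refine Filter.Eventually.of_forall fun t ht => ?_
    have := h2 t ht
    have := Real.pi_pos
    simp only [Pi.zero_apply]
    positivity

theorem volume_octPart (I : Set ℝ) (hI : MeasurableSet I) (i j k : Fin 3)
    (σ : Equiv.Perm (Fin 3)) (hi : σ i = 0) (hj : σ j = 1)
    (hk : σ k = 2) : volume (octPart I i j k) = volume (octPart I 0 1 2) := by
  have hmp := volume_measurePreserving_piCongrLeft (fun _ : Fin 3 => ℝ) σ
  have := hmp.measure_preimage (measurableSet_octPart I hI 0 1 2).nullMeasurableSet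
  rw [← this]
  congr 1
  ext x
  have key : ∀ l : Fin 3, (MeasurableEquiv.piCongrLeft (fun _ : Fin 3 => ℝ) σ x) (σ l) = x l := by
    intro l
    simp [MeasurableEquiv.piCongrLeft, Equiv.piCongrLeft_apply_apply]
  simp only [octPart, mem_preimage, Set.mem_ofPred_eq]
  rw [← hi, ← hj, ← hk, key, key, key]

theorem W0_le : MeasureTheory.volume {x : Fin 3 → ℝ |
    (∀ i, 0 ≤ x i ∧ x i ≤ 1) ∧ 2 < ∑ i, (x i)^2} ≤ ENNReal.ofReal 0.035 := by
  set W := {x : Fin 3 → ℝ | (∀ i, 0 ≤ x i ∧ x i ≤ 1) ∧ 2 < ∑ i, (x i)^2} with hW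
  have hs2 : √(2:ℝ) ^ 2 = 2 := Real.sq_sqrt (by norm_num)
  have hs1 : 1 ≤ √(2:ℝ) := Real.one_le_sqrt.2 (by norm_num)
  have hs0 : 0 ≤ √(2:ℝ) := by linarith
  have hs3 : √(2:ℝ) ^ 3 = 2 * √2 := by rw [pow_succ, hs2]
  have hsq : √(2:ℝ) ≤ 1.414214 := by
    rw [Real.sqrt_le_left (by norm_num)]
    norm_num
  -- the octant ball
  set O := octPart (Ioc 0 (√2)) 0 1 2 with hO
  set C0 := octPart (Ioc 1 (√2)) 0 1 2 with hC0
  set C1 := octPart (Ioc 1 (√2)) 1 0 2 with hC1
  set C2 := octPart (Ioc 1 (√2)) 2 1 0 with hC2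
  have vO : volume O = ENNReal.ofReal (Real.pi * √2 / 3) := by
    rw [hO, volume_octPart_zero _ _ le_rfl hs0 le_rfl, hs3]
    congr 1
    ring
  have vC0 : volume C0 = ENNReal.ofReal (Real.pi * (√2 / 3 - 5 / 12)) := by
    rw [hC0, volume_octPart_zero _ _ (by norm_num) hs1 le_rfl, hs3]
    congr 1
    ring
  have vC1 : volume C1 = ENNReal.ofReal (Real.pi * (√2 / 3 - 5 / 12)) := by
    rw [← vC0]
    exact volume_octPart _ measurableSet_Ioc 1 0 2 (Equiv.swap 0 1) (by decide) (by decide)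
      (by decide)
  have vC2 : volume C2 = ENNReal.ofReal (Real.pi * (√2 / 3 - 5 / 12)) := by
    rw [← vC0]
    exact volume_octPart _ measurableSet_Ioc 2 1 0 (Equiv.swap 0 2) (by decide) (by decide)
      (by decide)
  have vI : volume (Icc (0 : Fin 3 → ℝ) 1) = 1 := by
    rw [Real.volume_Icc_pi]
    simp
  have mO : MeasurableSet O := measurableSet_octPart _ measurableSet_Ioc _ _ _
  have hdisj : Disjoint W O := by
    rw [Set.disjoint_left]
    rintro x ⟨_, h2⟩ ⟨_, _, _, h3⟩
    rw [Fin.sum_univ_three] at h2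
    linarith
  have hsub : W ∪ O ⊆ Icc (0 : Fin 3 → ℝ) 1 ∪ C0 ∪ C1 ∪ C2 := by
    rintro x (⟨h1, _⟩ | ⟨⟨h0, h0'⟩, h1, h2, h3⟩)
    · left; left; left
      exact ⟨fun i => (h1 i).1, fun i => (h1 i).2⟩
    · by_cases c0 : 1 < x 0
      · left; left; right
        exact ⟨⟨c0, h0'⟩, h1, h2, h3⟩
      by_cases c1 : 1 < x 1
      · left; right
        exact ⟨⟨c1, Real.le_sqrt_of_sq_le (by nlinarith [sq_nonneg (x 0), sq_nonneg (x 2)])⟩,
          h0.le, h2, by linarith⟩
      by_cases c2 : 1 < x 2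
      · right
        exact ⟨⟨c2, Real.le_sqrt_of_sq_le (by nlinarith [sq_nonneg (x 0), sq_nonneg (x 1)])⟩,
          h1, h0.le, by linarith⟩
      left; left; left
      refine ⟨fun i => ?_, fun i => ?_⟩
      · fin_cases i
        · exact h0.le
        · exact h1
        · exact h2
      · fin_cases i
        · exact not_lt.1 c0
        · exact not_lt.1 c1
        · exact not_lt.1 c2
  have hc : 0 ≤ Real.pi * (√2 / 3 - 5 / 12) := by
    have h1 : (1.414 : ℝ) ≤ √2 := Real.le_sqrt_of_sq_le (by norm_num)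
    have := Real.pi_pos
    have h2 : 0 ≤ √2 / 3 - 5 / 12 := by linarith
    positivity
  have hmain : volume W + volume O ≤ ENNReal.ofReal (1 + 3 * (Real.pi * (√2 / 3 - 5 / 12))) := by
    rw [← measure_union hdisj mO]
    refine (measure_mono hsub).trans ?_
    refine (measure_union_le _ _).trans ?_
    refine (add_le_add_left (measure_union_le _ _) _).trans ?_
    refine (add_le_add_left (add_le_add_left (measure_union_le _ _) _) _).trans ?_
    rw [vI, vC0, vC1, vC2, ← ENNReal.ofReal_one, ← ENNReal.ofReal_add (by norm_num) hc,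
      ← ENNReal.ofReal_add (by positivity) hc, ← ENNReal.ofReal_add (by positivity) hc]
    apply ENNReal.ofReal_le_ofReal
    linarith
  have h5 : volume W ≤ ENNReal.ofReal (1 + 3 * (Real.pi * (√2 / 3 - 5 / 12))) - volume O :=
    ENNReal.le_sub_of_add_le_right (by rw [vO]; exact ENNReal.ofReal_ne_top) hmain
  refine h5.trans ?_
  rw [vO, ← ENNReal.ofReal_sub _ (by positivity)]
  apply ENNReal.ofReal_le_ofReal
  have hpi : (3.14159 : ℝ) < Real.pi := Real.pi_gt_d6.trans' (by norm_num)
  have e : 1 + 3 * (Real.pi * (√2 / 3 - 5 / 12)) - Real.pi * √2 / 3 =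
      1 - Real.pi * (5 / 4 - 2 * √2 / 3) := by ring
  rw [e]
  have h6 : (0.30719 : ℝ) ≤ 5 / 4 - 2 * √2 / 3 := by linarith
  have h7 : (3.14159 : ℝ) * 0.30719 ≤ Real.pi * (5 / 4 - 2 * √2 / 3) := by
    apply mul_le_mul hpi.le h6 (by norm_num) Real.pi_pos.le
  norm_num at h7 ⊢
  linarith

end Pool.Agent.Helper27.Cube
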