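import Pool.Agent.Helper27.Cube.Slice

set_option autoImplicit false

namespace Pool.Agent.Helper27.Cube

open MeasureTheory Set
open scoped ENNReal

theorem integral_quarter : ∫ x in (0 : ℝ)..1, √(1 - x ^ 2) = Real.pi / 4 := by
  have hint : ∀ a b : ℝ, IntervalIntegrable (fun x : ℝ => √(1 - x ^ 2)) volume a b := by
    intro a b
    apply Continuous.intervalIntegrable
    fun_prop
  have h1 := integral_sqrt_one_sub_sq
  rw [← intervalIntegral.integral_add_adjacent_intervals (hint (-1) 0) (hint 0 1)] at h1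
  have h2 : ∫ x in (-1 : ℝ)..0, √(1 - x ^ 2) = ∫ x in (0 : ℝ)..1, √(1 - x ^ 2) := by
    have := intervalIntegral.integral_comp_neg (a := (0:ℝ)) (b := 1) (fun x : ℝ => √(1 - x ^ 2))
    simp only [neg_zero, even_two.neg_pow] at this
    exact this.symm
  rw [h2] at h1
  linarith

theorem integral_quarter_radius (r : ℝ) (hr : 0 ≤ r) :
    ∫ x in (0 : ℝ)..r, √(r ^ 2 - x ^ 2) = Real.pi * r ^ 2 / 4 := by
  rcases hr.eq_or_lt with rfl | hr
  · simp
  have h := intervalIntegral.integral_comp_mul_left (a := (0:ℝ)) (b := 1)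
    (fun x : ℝ => √(r ^ 2 - x ^ 2)) hr.ne'
  simp only [mul_zero, mul_one, smul_eq_mul] at h
  have h2 : ∀ x : ℝ, √(r ^ 2 - (r * x) ^ 2) = r * √(1 - x ^ 2) := by
    intro x
    rw [show r ^ 2 - (r * x) ^ 2 = r ^ 2 * (1 - x ^ 2) by ring, Real.sqrt_mul (sq_nonneg r),
      Real.sqrt_sq hr.le]
  simp_rw [h2] at h
  rw [intervalIntegral.integral_const_mul, integral_quarter] at h
  field_simp at h
  field_simp
  linarith

/-- Area of a quarter disc. -/
theorem volume_quarter_disc (ρ : ℝ) (hρ : 0 ≤ ρ) :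
    volume {p : ℝ × ℝ | 0 ≤ p.1 ∧ 0 ≤ p.2 ∧ p.1 ^ 2 + p.2 ^ 2 ≤ ρ} =
      ENNReal.ofReal (Real.pi * ρ / 4) := by
  have hm : MeasurableSet {p : ℝ × ℝ | 0 ≤ p.1 ∧ 0 ≤ p.2 ∧ p.1 ^ 2 + p.2 ^ 2 ≤ ρ} := by
    refine MeasurableSet.inter (measurableSet_le measurable_const measurable_fst) ?_
    refine MeasurableSet.inter (measurableSet_le measurable_const measurable_snd) ?_
    exact measurableSet_le ((measurable_fst.pow_const 2).add (measurable_snd.pow_const 2))
      measurable_const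
  rw [Measure.volume_eq_prod, Measure.prod_apply hm]
  have hs : ∀ y : ℝ, volume (Prod.mk y ⁻¹' {p : ℝ × ℝ | 0 ≤ p.1 ∧ 0 ≤ p.2 ∧ p.1 ^ 2 + p.2 ^ 2 ≤ ρ})
      = (Icc 0 (√ρ)).indicator (fun y => ENNReal.ofReal (√((√ρ) ^ 2 - y ^ 2))) y := by
    intro y
    by_cases hy : y ∈ Icc 0 (√ρ)
    · rw [indicator_of_mem hy]
      obtain ⟨hy0, hy1⟩ := hy
      have hnn : 0 ≤ ρ - y ^ 2 := by
        have := Real.sq_sqrt hρ
        nlinarith
      have : Prod.mk y ⁻¹' {p : ℝ × ℝ | 0 ≤ p.1 ∧ 0 ≤ p.2 ∧ p.1 ^ 2 + p.2 ^ 2 ≤ ρ} =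
          Icc 0 (√((√ρ) ^ 2 - y ^ 2)) := by
        ext z
        simp only [mem_preimage, Set.mem_ofPred_eq, mem_Icc, Real.sq_sqrt hρ]
        constructor
        · rintro ⟨_, h2, h3⟩
          exact ⟨h2, Real.le_sqrt_of_sq_le (by linarith)⟩
        · rintro ⟨h2, h3⟩
          refine ⟨hy0, h2, ?_⟩
          have := Real.sq_sqrt hnn
          have := pow_le_pow_left₀ h2 h3 2
          linarith
      rw [this, Real.volume_Icc, sub_zero]
    · rw [indicator_of_notMem hy]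
      convert measure_empty (μ := (volume : Measure ℝ))
      ext z
      simp only [mem_preimage, Set.mem_ofPred_eq, mem_empty_iff_false, iff_false]
      rintro ⟨h1, h2, h3⟩
      exact hy ⟨h1, Real.le_sqrt_of_sq_le (by nlinarith)⟩
  simp_rw [hs]
  rw [lintegral_indicator measurableSet_Icc]
  rw [Measure.restrict_congr_set Ioc_ae_eq_Icc.symm, ← ofReal_integral_eq_lintegral_ofReal]
  · rw [← intervalIntegral.integral_of_le (Real.sqrt_nonneg _),
      integral_quarter_radius _ (Real.sqrt_nonneg _), Real.sq_sqrt hρ]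
  · have : Continuous fun y : ℝ => √((√ρ) ^ 2 - y ^ 2) := by fun_prop
    exact (this.integrableOn_Icc (a := 0) (b := √ρ)).mono_set Ioc_subset_Icc_self
  · exact Filter.Eventually.of_forall fun t => Real.sqrt_nonneg _

end Pool.Agent.Helper27.Cube
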