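import Mathlib

set_option autoImplicit false

namespace Pool.Agent.Helper27.Cube

open MeasureTheory Set
open scoped ENNReal

/-- Fubini on `Fin 3 → ℝ`: the volume is the integral of the areas of the slices `x 0 = t`. -/
theorem volume_eq_lintegral_slice (A : Set (Fin 3 → ℝ)) (hA : MeasurableSet A) :
    volume A = ∫⁻ t : ℝ, volume {p : ℝ × ℝ | ![t, p.1, p.2] ∈ A} := by
  have h1 := volume_preserving_piFinSuccAbove (fun _ : Fin 3 => ℝ) 0
  set e := MeasurableEquiv.piFinSuccAbove (fun _ : Fin 3 => ℝ) 0 with he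
  have h2 : volume A = volume (e.symm ⁻¹' A) :=
    ((h1.symm e).measure_preimage hA.nullMeasurableSet).symm
  rw [h2, Measure.volume_eq_prod, Measure.prod_apply (e.symm.measurable hA)]
  refine lintegral_congr fun t => ?_
  have h3 := volume_preserving_finTwoArrow ℝ
  set e2 : (Fin 2 → ℝ) ≃ᵐ ℝ × ℝ := MeasurableEquiv.finTwoArrow with he2
  have hm : MeasurableSet (Prod.mk t ⁻¹' (e.symm ⁻¹' A)) :=
    measurable_prodMk_left (e.symm.measurable hA)
  have h4 : volume (Prod.mk t ⁻¹' (e.symm ⁻¹' A)) =
      volume (e2.symm ⁻¹' (Prod.mk t ⁻¹' (e.symm ⁻¹' A))) :=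
    ((h3.symm e2).measure_preimage hm.nullMeasurableSet).symm
  rw [h4]
  congr 1
  ext p
  have : e.symm (t, e2.symm p) = ![t, p.1, p.2] := by
    ext i
    fin_cases i <;> simp [he, he2, MeasurableEquiv.piFinSuccAbove, MeasurableEquiv.finTwoArrow,
      MeasurableEquiv.piFinTwo, Fin.insertNthEquiv]
  simp only [mem_preimage, this, Set.mem_ofPred_eq]

/-- Area of a right isosceles triangle. -/
theorem volume_triangle (c k : ℝ) (h : k ≤ 2 * c) :
    volume {p : ℝ × ℝ | p.1 < c ∧ p.2 < c ∧ k < p.1 + p.2} = ENNReal.ofReal ((2 * c - k) ^ 2 / 2) := by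
  have hset : {p : ℝ × ℝ | p.1 < c ∧ p.2 < c ∧ k < p.1 + p.2} =
      regionBetween (fun y => k - y) (fun _ => c) (Ioo (k - c) c) := by
    ext p
    simp only [regionBetween, Set.mem_ofPred_eq, mem_Ioo]
    constructor
    · rintro ⟨h1, h2, h3⟩
      refine ⟨⟨by linarith, h1⟩, by linarith, h2⟩
    · rintro ⟨⟨h1, h2⟩, h3, h4⟩
      exact ⟨h2, h4, by linarith⟩
  have hle : k - c ≤ c := by linarith
  have i1 : IntegrableOn (fun y : ℝ => k - y) (Ioo (k - c) c) :=
    ((continuous_const.sub continuous_id).integrableOn_Icc (a := k - c) (b := c)).mono_set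
      Ioo_subset_Icc_self
  have i2 : IntegrableOn (fun _ : ℝ => c) (Ioo (k - c) c) :=
    (continuous_const.integrableOn_Icc (a := k - c) (b := c)).mono_set
      Ioo_subset_Icc_self
  rw [hset, Measure.volume_eq_prod, volume_regionBetween_eq_integral i1 i2 measurableSet_Ioo
    (fun y hy => by have := hy.1; linarith)]
  congr 1
  rw [← integral_Ioc_eq_integral_Ioo, ← intervalIntegral.integral_of_le hle]
  have hd : ∀ y ∈ uIcc (k - c) c, HasDerivAt (fun y : ℝ => (y + c - k) ^ 2 / 2)
      (((fun _ : ℝ => c) - fun y => k - y) y) y := by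
    intro y _
    have := ((((hasDerivAt_id y).add_const c).sub_const k).pow 2).div_const 2
    refine this.congr_deriv ?_
    simp
    ring
  rw [intervalIntegral.integral_eq_sub_of_hasDerivAt hd]
  · ring
  · apply Continuous.intervalIntegrable
    exact continuous_const.sub (continuous_const.sub continuous_id)

theorem volume_slab (κ a b : ℝ) (c : ℝ → ℝ) (hc : Measurable c)
    (h : ∀ t ∈ Ioc a b, κ - t ≤ 2 * c t) :
    volume {x : Fin 3 → ℝ | x 0 ∈ Ioc a b ∧ x 1 < c (x 0) ∧ x 2 < c (x 0) ∧ κ < x 0 + x 1 + x 2} =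
      ∫⁻ t in Ioc a b, ENNReal.ofReal ((2 * c t - (κ - t)) ^ 2 / 2) := by
  have hm : MeasurableSet {x : Fin 3 → ℝ | x 0 ∈ Ioc a b ∧ x 1 < c (x 0) ∧ x 2 < c (x 0) ∧
      κ < x 0 + x 1 + x 2} := by
    refine MeasurableSet.inter (measurable_pi_apply 0 measurableSet_Ioc) ?_
    refine MeasurableSet.inter (measurableSet_lt (measurable_pi_apply 1)
      (hc.comp (measurable_pi_apply 0))) ?_
    refine MeasurableSet.inter (measurableSet_lt (measurable_pi_apply 2)
      (hc.comp (measurable_pi_apply 0))) ?_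
    exact measurableSet_lt measurable_const (((measurable_pi_apply 0).add
      (measurable_pi_apply 1)).add (measurable_pi_apply 2))
  rw [volume_eq_lintegral_slice _ hm, ← lintegral_indicator measurableSet_Ioc]
  refine lintegral_congr fun t => ?_
  by_cases ht : t ∈ Ioc a b
  · rw [indicator_of_mem ht, ← volume_triangle _ _ (h t ht)]
    congr 1
    ext p
    simp only [Set.mem_ofPred_eq, Matrix.cons_val_zero, Matrix.cons_val_one, Matrix.cons_val, ht,
      true_and]
    constructor
    · rintro ⟨h1, h2, h3⟩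
      exact ⟨h1, h2, by linarith⟩
    · rintro ⟨h1, h2, h3⟩
      exact ⟨h1, h2, by linarith⟩
  · rw [indicator_of_notMem ht]
    convert measure_empty (μ := (volume : Measure (ℝ × ℝ)))
    ext p
    simp only [Set.mem_ofPred_eq, Matrix.cons_val_zero, ht, false_and, mem_empty_iff_false]

theorem lintegral_sq (a b α β : ℝ) (hab : a ≤ b) (hβ : β ≠ 0) :
    ∫⁻ t in Ioc a b, ENNReal.ofReal ((α + β * t) ^ 2 / 2) =
      ENNReal.ofReal (((α + β * b) ^ 3 - (α + β * a) ^ 3) / (6 * β)) := by
  rw [← ofReal_integral_eq_lintegral_ofReal]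
  · congr 1
    rw [← intervalIntegral.integral_of_le hab]
    have hd : ∀ y ∈ uIcc a b, HasDerivAt (fun y : ℝ => (α + β * y) ^ 3 / (6 * β))
        ((α + β * y) ^ 2 / 2) y := by
      intro y _
      have := ((((hasDerivAt_id y).const_mul β).const_add α).pow 3).div_const (6 * β)
      refine this.congr_deriv ?_
      simp
      field_simp
      ring
    rw [intervalIntegral.integral_eq_sub_of_hasDerivAt hd]
    · ring
    · apply Continuous.intervalIntegrable
      fun_prop
  · have : Continuous fun t : ℝ => (α + β * t) ^ 2 / 2 := by fun_prop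
    exact (this.integrableOn_Icc (a := a) (b := b)).mono_set Ioc_subset_Icc_self
  · exact Filter.Eventually.of_forall fun t => by positivity

end Pool.Agent.Helper27.Cube
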